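import Mathlib
import Pool.Agent.H87.DR.Sets
import Pool.Agent.H41.DS.Low

/-!
# The derived sets of the set of Mahler measures of polynomials without reciprocal factors
-/

set_option autoImplicit false

namespace Pool.Agent.Results.MP_9f5454_nt.ClosedNonreciprocal

/-- The logarithmic Mahler measure of an integer polynomial in `k` variables. -/
noncomputable def mahler {k : ℕ} (F : MvPolynomial (Fin k) ℤ) : ℝ :=
  ∫ t : Fin k → ℝ in Set.univ.pi (fun _ => Set.Icc (0 : ℝ) 1),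
    Real.log ‖MvPolynomial.eval
      (fun i => Complex.exp (((2 * Real.pi * t i : ℝ) : ℂ) * Complex.I))
      (MvPolynomial.map (Int.castRingHom ℂ) F)‖

/-- `G` is reciprocal: `G(x) = ± x ^ a * G(1 / x)` for some exponent vector `a`. -/
def Reciprocal {k : ℕ} (G : MvPolynomial (Fin k) ℤ) : Prop :=
  ∃ (a : Fin k →₀ ℕ) (ε : ℤ), (ε = 1 ∨ ε = -1) ∧ (∀ m ∈ G.support, m ≤ a) ∧
    ∀ m, m ≤ a → G.coeff (a - m) = ε * G.coeff m

/-- `F` has no nonconstant reciprocal irreducible factor of positive Mahler measure. -/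
def NoReciprocalFactor {k : ℕ} (F : MvPolynomial (Fin k) ℤ) : Prop :=
  ∀ G : MvPolynomial (Fin k) ℤ, Irreducible G → G ∣ F → 0 < mahler G →
    ¬ Reciprocal G ∨ ∃ c : ℤ, G = MvPolynomial.C c

/-- The dimension of the space spanned by the differences `m - m'` of exponent vectors of
monomials `m`, `m'` of `P`, where `P` runs over all nonreciprocal irreducible factors of `F`. -/
noncomputable def jointDim {k : ℕ} (F : MvPolynomial (Fin k) ℤ) : ℕ :=
  Module.finrank ℚ (Submodule.span ℚ {v : Fin k → ℚ | ∃ P : MvPolynomial (Fin k) ℤ,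
    Irreducible P ∧ P ∣ F ∧ ¬ Reciprocal P ∧ ∃ m ∈ P.support, ∃ m' ∈ P.support,
      v = fun i => (m i : ℚ) - (m' i : ℚ)})

/-- The set `L(r)` of the Mahler measures of the nonzero integer polynomials, in any number of
variables, without nonconstant reciprocal irreducible factor of positive measure, whose
nonreciprocal irreducible factors have joint dimension at least `r`. -/
def level (r : ℕ) : Set ℝ :=
  {x : ℝ | ∃ (k : ℕ) (F : MvPolynomial (Fin k) ℤ), F ≠ 0 ∧ NoReciprocalFactor F ∧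
    r ≤ jointDim F ∧ mahler F = x}

/-- Every `L(r)` is closed (`L(0)` is the set of all measures of such polynomials), its derived
set is contained in `L(r + 1)`, the `k`-th derived set of `L(0)` is contained in `L(k + 1)` for
`k ≥ 1`, and `r ≤ 4 * exp (4 * x)` for all `x ∈ L(r)`; so the elements of the `k`-th derived set
of `L(0)` are at least `log ((k + 1) / 4) / 4`, and `log (k + 2)` is one of them. -/
theorem result :
    (∀ r : ℕ, IsClosed (level r)) ∧
    (∀ r : ℕ, derivedSet (level r) ⊆ level (r + 1)) ∧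
    (∀ k : ℕ, 1 ≤ k → derivedSet^[k] (level 0) ⊆ level (k + 1)) ∧
    (∀ r : ℕ, ∀ x ∈ level r, (r : ℝ) ≤ 4 * Real.exp (4 * x)) ∧
    (∀ k : ℕ, 1 ≤ k → ∀ x ∈ derivedSet^[k] (level 0), Real.log ((k + 1 : ℝ) / 4) / 4 ≤ x) ∧
    (∀ k : ℕ, Real.log (k + 2) ∈ derivedSet^[k] (level 0)) := by
  have h : ∀ (k : ℕ) (F : MvPolynomial (Fin k) ℤ), mahler F = Pool.Agent.H87.MM.mm F :=
    fun k F => (Pool.Agent.H87.MM.mm_eq F).symm
  have h2 : ∀ (k : ℕ) (F : MvPolynomial (Fin k) ℤ),
      NoReciprocalFactor F ↔ Pool.Agent.H87.MM.Cl F := by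
    intro k F
    unfold NoReciprocalFactor Pool.Agent.H87.MM.Cl
    simp only [h]
    exact Iff.rfl
  have h3 : ∀ r, level r = Pool.Agent.H87.DR.LV r := by
    intro r
    ext x
    constructor
    · rintro ⟨k, F, h5, h6, h7, h8⟩
      exact ⟨k, F, h5, (h2 k F).mp h6, h7, (h k F).symm.trans h8⟩
    · rintro ⟨k, F, h5, h6, h7, h8⟩
      exact ⟨k, F, h5, (h2 k F).mpr h6, h7, (h k F).trans h8⟩
  have h4 : ∀ k : ℕ, 1 ≤ k → derivedSet^[k] (level 0) ⊆ level (k + 1) := by
    intro k hk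
    obtain ⟨j, rfl⟩ := Nat.exists_eq_add_of_le' hk
    rw [h3, h3]
    exact Pool.Agent.H87.DR.derived_iter j
  have h5 : ∀ r : ℕ, ∀ x ∈ level r, (r : ℝ) ≤ 4 * Real.exp (4 * x) := by
    intro r x hx
    rw [h3] at hx
    exact Pool.Agent.H87.DR.LV_bound hx
  have h9 : level 0 = Pool.Agent.H41.DS.LN := by
    rw [h3]
    ext x
    exact ⟨fun ⟨d, G, a, b, _, c⟩ => ⟨d, G, a, b, c⟩,
      fun ⟨d, G, a, b, c⟩ => ⟨d, G, a, b, Nat.zero_le _, c⟩⟩
  refine ⟨fun r => ?_, fun r => ?_, h4, h5, fun k hk x hx => ?_, fun k => ?_⟩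
  · rw [h3]
    exact Pool.Agent.H87.DR.closed_LV r
  · rw [h3, h3]
    exact Pool.Agent.H87.DR.derived_LV r
  · have h6 := h5 _ x (h4 k hk hx)
    push_cast at h6
    have h7 : (0 : ℝ) < (k + 1 : ℝ) / 4 := by positivity
    have h8 : Real.log ((k + 1 : ℝ) / 4) ≤ 4 * x := by
      rw [Real.log_le_iff_le_exp h7]
      linarith
    linarith
  · rw [h9]
    exact Pool.Agent.H41.DS.log_mem_der k

end Pool.Agent.Results.MP_9f5454_nt.ClosedNonreciprocal
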