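import Mathlib
import Pool.Agent.H87.DR.Joint

/-!
# The joint dimension of all nonreciprocal irreducible factors is bounded by the Mahler measure
-/

set_option autoImplicit false

namespace Pool.Agent.Results.MP_9f5454_nt.DimensionBound

/-- The logarithmic Mahler measure of an integer polynomial in `k` variables. -/
noncomputable def mahler {k : ℕ} (F : MvPolynomial (Fin k) ℤ) : ℝ :=
  ∫ t : Fin k → ℝ in Set.univ.pi (fun _ => Set.Icc (0 : ℝ) 1),
    Real.log ‖MvPolynomial.eval
      (fun i => Complex.exp (((2 * Real.pi * t i : ℝ) : ℂ) * Complex.I))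
      (MvPolynomial.map (Int.castRingHom ℂ) F)‖

/-- `G` is reciprocal: `G(x) = ± x ^ a * G(1 / x)` for some exponent vector `a`. -/
def Reciprocal {k : ℕ} (G : MvPolynomial (Fin k) ℤ) : Prop :=
  ∃ (a : Fin k →₀ ℕ) (ε : ℤ), (ε = 1 ∨ ε = -1) ∧ (∀ m ∈ G.support, m ≤ a) ∧
    ∀ m, m ≤ a → G.coeff (a - m) = ε * G.coeff m

/-- The joint dimension of the nonreciprocal factors of `F`: the dimension of the space spanned by
the differences `m - m'` of exponent vectors of monomials `m`, `m'` of `P`, where `P` runs over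
ALL nonreciprocal irreducible factors of `F`. -/
noncomputable def jointDim {k : ℕ} (F : MvPolynomial (Fin k) ℤ) : ℕ :=
  Module.finrank ℚ (Submodule.span ℚ {v : Fin k → ℚ | ∃ P : MvPolynomial (Fin k) ℤ,
    Irreducible P ∧ P ∣ F ∧ ¬ Reciprocal P ∧ ∃ m ∈ P.support, ∃ m' ∈ P.support,
      v = fun i => (m i : ℚ) - (m' i : ℚ)})

/-- The nonreciprocal irreducible factors of a nonzero integer polynomial `F` have joint dimension
at most `4 * exp (4 * m(F))`. -/
theorem result : ∀ (k : ℕ) (F : MvPolynomial (Fin k) ℤ), F ≠ 0 →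
    (jointDim F : ℝ) ≤ 4 * Real.exp (4 * mahler F) := by
  intro k F hF
  have h := Pool.Agent.H87.DR.jd_bound hF
  rw [Pool.Agent.H87.MM.mm_eq] at h
  exact h

end Pool.Agent.Results.MP_9f5454_nt.DimensionBound
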