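import Mathlib
import Pool.Agent.H87.BZ.UniForm
import Pool.Agent.H87.DR.Lim2

/-!
# Q1 for sequences of polynomials without reciprocal factors, uniform form, and the reduction of
Q1 to products of reciprocal polynomials
-/

set_option autoImplicit false

namespace Pool.Agent.Results.MP_9f5454_nt.NonreciprocalSequences

/-- The logarithmic Mahler measure of an integer polynomial in `k` variables. -/
noncomputable def mahler {k : ℕ} (F : MvPolynomial (Fin k) ℤ) : ℝ :=
  ∫ t : Fin k → ℝ in Set.univ.pi (fun _ => Set.Icc (0 : ℝ) 1),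
    Real.log ‖MvPolynomial.eval
      (fun i => Complex.exp (((2 * Real.pi * t i : ℝ) : ℂ) * Complex.I))
      (MvPolynomial.map (Int.castRingHom ℂ) F)‖

/-- `G` is reciprocal: `G(x) = ± x ^ a * G(1 / x)` for some exponent vector `a`. -/
def Reciprocal {k : ℕ} (G : MvPolynomial (Fin k) ℤ) : Prop :=
  ∃ (a : Fin k →₀ ℕ) (ε : ℤ), (ε = 1 ∨ ε = -1) ∧ (∀ m ∈ G.support, m ≤ a) ∧
    ∀ m, m ≤ a → G.coeff (a - m) = ε * G.coeff m

/-- `F` has no nonconstant reciprocal irreducible factor of positive Mahler measure. -/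
def NoReciprocalFactor {k : ℕ} (F : MvPolynomial (Fin k) ℤ) : Prop :=
  ∀ G : MvPolynomial (Fin k) ℤ, Irreducible G → G ∣ F → 0 < mahler G →
    ¬ Reciprocal G ∨ ∃ c : ℤ, G = MvPolynomial.C c

/-- The value at the point `(exp (2 π i t_1), ..., exp (2 π i t_l))` of the Laurent polynomial
`G_A`, which is obtained from `G` by the substitution `x_i ↦ ∏ j, z_j ^ A i j`. -/
noncomputable def value {r l : ℕ} (G : MvPolynomial (Fin r) ℤ) (A : Fin r → Fin l → ℤ)
    (t : Fin l → ℝ) : ℂ :=
  MvPolynomial.eval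
    (fun i => Complex.exp (((2 * Real.pi * ∑ j, (A i j : ℝ) * t j : ℝ) : ℂ) * Complex.I))
    (MvPolynomial.map (Int.castRingHom ℂ) G)

/-- The set `M(G)` of the Mahler measures of the nonzero `G_A` (the Laurent polynomial `G_A` is
nonzero if and only if it has a nonzero value at some point of the torus). -/
def measures {r : ℕ} (G : MvPolynomial (Fin r) ℤ) : Set ℝ :=
  {x | ∃ (l : ℕ) (A : Fin r → Fin l → ℤ), (∃ t : Fin l → ℝ, value G A t ≠ 0) ∧
    x = ∫ t : Fin l → ℝ in Set.univ.pi (fun _ => Set.Icc (0 : ℝ) 1), Real.log ‖value G A t‖}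

/-- `F` is a product of a polynomial without nonconstant reciprocal irreducible factor of positive
measure and of a polynomial with Mahler measure in `M(H)`. -/
def ReciprocalPartIn {r k : ℕ} (H : MvPolynomial (Fin r) ℤ) (F : MvPolynomial (Fin k) ℤ) : Prop :=
  ∃ P R : MvPolynomial (Fin k) ℤ, F = P * R ∧ NoReciprocalFactor P ∧ mahler R ∈ measures H

/-- `R` is a product of nonconstant reciprocal irreducible polynomials of positive measure. -/
def ReciprocalProduct {k : ℕ} (R : MvPolynomial (Fin k) ℤ) : Prop :=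
  ∃ s : Multiset (MvPolynomial (Fin k) ℤ), (∀ G ∈ s, Irreducible G ∧ Reciprocal G ∧ 0 < mahler G ∧
    ¬ ∃ c : ℤ, G = MvPolynomial.C c) ∧ R = s.prod

/-- Q1 for the sequences of nonzero integer polynomials with the property `K`. -/
def Question (K : ∀ k : ℕ, MvPolynomial (Fin k) ℤ → Prop) : Prop :=
  ∀ (d : ℕ → ℕ) (F : ∀ n : ℕ, MvPolynomial (Fin (d n)) ℤ), (∀ n, F n ≠ 0) →
    (∀ n, K (d n) (F n)) →
    (∀ (r : ℕ) (G : MvPolynomial (Fin r) ℤ), G ≠ 0 →
      Set.Finite {n : ℕ | mahler (F n) ∈ measures G}) →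
    Filter.Tendsto (fun n => mahler (F n)) Filter.atTop Filter.atTop

/-- Let `H` be a nonzero integer polynomial. For every `C` there is ONE nonzero integer polynomial
`G` such that `M(G)` contains all measures `m(F) ≤ C` of the products `F = P * R`, `P` without
nonconstant reciprocal irreducible factor of positive measure and `m(R)` in `M(H)`. In particular
Q1 is true for all sequences of such polynomials. The limit of a convergent sequence `m(F n)`,
`F n` without nonconstant reciprocal irreducible factors of positive measure, is `m(G)` for such a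
polynomial `G` with `m(F n) ∈ M(G)` for infinitely many `n`. Moreover Q1 (for all sequences)
follows from Q1 for sequences of products of reciprocal irreducible polynomials. -/
theorem result :
    (∀ (r₀ : ℕ) (H : MvPolynomial (Fin r₀) ℤ), H ≠ 0 → ∀ C : ℝ,
      ∃ (r : ℕ) (G : MvPolynomial (Fin r) ℤ), G ≠ 0 ∧
        ∀ (k : ℕ) (F : MvPolynomial (Fin k) ℤ), F ≠ 0 → ReciprocalPartIn H F →
          mahler F ≤ C → mahler F ∈ measures G) ∧
    (∀ (r₀ : ℕ) (H : MvPolynomial (Fin r₀) ℤ), H ≠ 0 →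
      Question fun _ F => ReciprocalPartIn H F) ∧
    (∀ (d : ℕ → ℕ) (F : ∀ n : ℕ, MvPolynomial (Fin (d n)) ℤ) (μ : ℝ), (∀ n, F n ≠ 0) →
      (∀ n, NoReciprocalFactor (F n)) →
      Filter.Tendsto (fun n => mahler (F n)) Filter.atTop (nhds μ) →
      ∃ (k : ℕ) (G : MvPolynomial (Fin k) ℤ), G ≠ 0 ∧ NoReciprocalFactor G ∧ mahler G = μ ∧
        Set.Infinite {n : ℕ | mahler (F n) ∈ measures G}) ∧
    ((Question fun _ F => ReciprocalProduct F) → Question fun _ _ => True) := by
  have h : ∀ (k : ℕ) (F : MvPolynomial (Fin k) ℤ), mahler F = Pool.Agent.H87.MM.mm F :=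
    fun k F => (Pool.Agent.H87.MM.mm_eq F).symm
  have h2 : ∀ (k : ℕ) (F : MvPolynomial (Fin k) ℤ),
      NoReciprocalFactor F ↔ Pool.Agent.H87.MM.Cl F := by
    intro k F
    unfold NoReciprocalFactor Pool.Agent.H87.MM.Cl
    simp only [h]
    exact Iff.rfl
  have h4 : ∀ (r : ℕ) (G : MvPolynomial (Fin r) ℤ) (x : ℝ),
      x ∈ measures G ↔ Pool.Agent.H87.BZ.InM G x := by
    intro r G x
    rw [Pool.Agent.H87.BZ.InM_iff]
    exact Iff.rfl
  have h5 : ∀ (r₀ : ℕ) (H : MvPolynomial (Fin r₀) ℤ), H ≠ 0 → ∀ C : ℝ,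
      ∃ (r : ℕ) (G : MvPolynomial (Fin r) ℤ), G ≠ 0 ∧
        ∀ (k : ℕ) (F : MvPolynomial (Fin k) ℤ), F ≠ 0 → ReciprocalPartIn H F →
          mahler F ≤ C → mahler F ∈ measures G := by
    intro r₀ H hH C
    obtain ⟨r, G, hG, hG2⟩ := Pool.Agent.H87.BZ.uniform_part hH C
    refine ⟨r, G, hG, fun k F hF hR hC => ?_⟩
    rw [h4, h]
    obtain ⟨P, R, h6, h7, h8⟩ := hR
    exact hG2 k F hF ⟨P, R, h6, (h2 _ P).mp h7, by rw [← h, ← h4]; exact h8⟩ (by rw [← h]; exact hC)
  refine ⟨h5, fun r₀ H hH d F hF hpart hfin => ?_, fun d F μ hF hcl hμ => ?_,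
    fun hq d F hF _ hfin => ?_⟩
  · rw [Filter.tendsto_atTop]
    intro C
    obtain ⟨r, G, hG, hG2⟩ := h5 r₀ H hH C
    rw [← Nat.cofinite_eq_atTop]
    have h6 : {n : ℕ | ¬ C ≤ mahler (F n)}.Finite :=
      (hfin r G hG).subset fun n hn => hG2 _ (F n) (hF n) (hpart n) (not_le.mp hn).le
    exact h6
  · simp only [h] at hμ
    obtain ⟨k, G, hG, hcG, hmm, hinf, -⟩ := Pool.Agent.H87.DR.limit_all d F hF
      (fun n => (h2 _ (F n)).mp (hcl n)) hμ
    refine ⟨k, G, hG, (h2 _ G).mpr hcG, by rw [h]; exact hmm, ?_⟩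
    simp only [h, h4]
    exact hinf
  · have hq' : Pool.Agent.H87.BZ.QF fun _ F => Pool.Agent.H87.BZ.RP F := by
      intro d F hF hcl hfin
      have := hq d F hF (fun n => ?_) (fun r G hG => ?_)
      · simpa only [h] using this
      · obtain ⟨s, hs, hs2⟩ := hcl n
        exact ⟨s, fun G hG => by rw [h]; exact hs G hG, hs2⟩
      · simp only [h, h4]
        exact hfin r G hG
    have h9 := Pool.Agent.H87.BZ.QF_red hq' d F hF (fun _ => trivial) (fun r G hG => by
      have := hfin r G hG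
      simpa only [h, h4] using this)
    simpa only [h] using h9

end Pool.Agent.Results.MP_9f5454_nt.NonreciprocalSequences
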