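import Mathlib
import Pool.Agent.H87.DR.Short

/-!
# Nonreciprocal polynomials of bounded Mahler measure are polynomials of bounded length, up to
factors of measure zero
-/

set_option autoImplicit false

namespace Pool.Agent.Results.MP_9f5454_nt.ShortMultiple

/-- The logarithmic Mahler measure of an integer polynomial in `k` variables. -/
noncomputable def mahler {k : ℕ} (F : MvPolynomial (Fin k) ℤ) : ℝ :=
  ∫ t : Fin k → ℝ in Set.univ.pi (fun _ => Set.Icc (0 : ℝ) 1),
    Real.log ‖MvPolynomial.eval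
      (fun i => Complex.exp (((2 * Real.pi * t i : ℝ) : ℂ) * Complex.I))
      (MvPolynomial.map (Int.castRingHom ℂ) F)‖

/-- `G` is reciprocal: `G(x) = ± x ^ a * G(1 / x)` for some exponent vector `a`. -/
def Reciprocal {k : ℕ} (G : MvPolynomial (Fin k) ℤ) : Prop :=
  ∃ (a : Fin k →₀ ℕ) (ε : ℤ), (ε = 1 ∨ ε = -1) ∧ (∀ m ∈ G.support, m ≤ a) ∧
    ∀ m, m ≤ a → G.coeff (a - m) = ε * G.coeff m

/-- The length of `H`: the sum of the absolute values of its coefficients. -/
noncomputable def length {k : ℕ} (H : MvPolynomial (Fin k) ℤ) : ℝ :=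
  ∑ m ∈ H.support, |((H.coeff m : ℤ) : ℝ)|

/-- For every `C` there is `K` such that: if `m(F) ≤ C` and `P` divides `F` and has no reciprocal
irreducible factor, then the length of `P * e` is at most `K` for some nonzero integer polynomial
`e` of measure zero; so `m(P * e) = m(P)`. -/
theorem result : ∀ C : ℝ, ∃ K : ℝ, ∀ (k : ℕ) (F P : MvPolynomial (Fin k) ℤ), F ≠ 0 →
    mahler F ≤ C → P ∣ F →
    (∀ G : MvPolynomial (Fin k) ℤ, Irreducible G → G ∣ P → ¬ Reciprocal G) →
    ∃ e : MvPolynomial (Fin k) ℤ, e ≠ 0 ∧ mahler e = 0 ∧ length (P * e) ≤ K ∧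
      mahler (P * e) = mahler P := by
  intro C
  have h : ∀ (k : ℕ) (F : MvPolynomial (Fin k) ℤ), mahler F = Pool.Agent.H87.MM.mm F :=
    fun k F => (Pool.Agent.H87.MM.mm_eq F).symm
  obtain ⟨K, hK⟩ := Pool.Agent.H87.DR.exact_product C
  refine ⟨K, fun k F P hF hC hP hirr => ?_⟩
  obtain ⟨e, he0, hme, hle⟩ := hK k F P hF ((h k F).symm.trans_le hC) hP hirr
  have hP0 : P ≠ 0 := by
    rintro rfl
    exact hF (zero_dvd_iff.mp hP)
  refine ⟨e, he0, (h k e).trans hme, hle, ?_⟩
  rw [h, h, Pool.Agent.H87.MM.mm_mul hP0 he0, hme, add_zero]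

end Pool.Agent.Results.MP_9f5454_nt.ShortMultiple
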